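import Mathlib

set_option autoImplicit false

/-!
EW project (helper745, MP_6bc78b_nt and MP_164d34_nt): the zeros near the points where `|ζ(1/2+it)| = (log T)^(κ+o(1))`.
Two independent lemmas (only Mathlib).
-/

namespace Pool.Agent.Y745.EW

open MeasureTheory

/-- LAYER: a superlevel set of the weight on which the integral is nonnegative -/
def P_LAYER : Prop := ∀ (G : Set ℝ) (V Ψ : ℝ → ℝ) (a b vh K μ0 : ℝ), MeasurableSet G → G ⊆ Set.Icc a b →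
  Continuous V → (∀ t, 0 ≤ V t) → (∀ t ∈ G, V t ≤ vh) → 0 < vh → IntegrableOn Ψ G → 0 ≤ K →
  K < ∫ t in G, V t * Ψ t →
  (∀ E : Set ℝ, MeasurableSet E → E ⊆ G → volume.real E ≤ μ0 → ∫ t in E, Ψ t ≤ K / vh) →
  ∃ v : ℝ, 0 ≤ v ∧ 0 ≤ ∫ t in G ∩ {t | v < V t}, Ψ t ∧ μ0 < volume.real (G ∩ {t | v < V t})

open Classical in
/-- SEPC: separated points on the critical line -/
def P_SEPC : Prop := ∀ (S : Finset ℂ) (d r t : ℝ), 0 < d → 0 ≤ r → (∀ s ∈ S, s.re = 1 / 2) →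
  (∀ s ∈ S, ∀ s' ∈ S, s' ≠ s → d ≤ ‖s - s'‖) →
  ((S.filter (fun s => |s.im - t| ≤ r)).card : ℝ) ≤ 2 * r / d + 1

end Pool.Agent.Y745.EW
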